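import Mathlib

set_option autoImplicit false
open Finset Filter Relation Asymptotics

namespace Pool.Agent.Results.MP_ac85ec_co.Four

/-- The order `r` on `n` points is graded with exactly `k` grade levels. -/
def Graded {n : ℕ} (r : Fin n → Fin n → Prop) (k : ℕ) : Prop :=
  ∃ g : Fin n → ℕ, (∀ p, 1 ≤ g p) ∧ (∀ p q, r p q → g p ≤ g q) ∧
    (∀ p q, r p q → p ≠ q → (∀ s, r p s → r s q → s = p ∨ s = q) → g q = g p + 1) ∧
    (∀ p, ∃ b, EqvGen r p b ∧ g b = 1) ∧ #(univ.image g) = k

/-- The number of partial orders on `n` labelled points graded with exactly `k` levels. -/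
noncomputable def a (k n : ℕ) : ℕ :=
  Nat.card {r : Fin n → Fin n → Prop // IsPartialOrder (Fin n) r ∧ Graded r k}

def T {n : ℕ} (g : Fin n → ℕ) : Finset (Fin n → Finset (Fin n)) :=
  Fintype.piFinset fun x =>
    (univ.filter fun y => g y + 1 = g x).powerset.filter fun s => g x = 1 ∨ s.Nonempty

theorem memT {n : ℕ} {g : Fin n → ℕ} {F : Fin n → Finset (Fin n)} (h : F ∈ T g) :
    (∀ x y, y ∈ F x → g y + 1 = g x) ∧ ∀ x, g x = 1 ∨ (F x).Nonempty := by
  simp only [T, Fintype.mem_piFinset, mem_filter, mem_powerset] at h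
  exact ⟨fun x y hy => (mem_filter.mp ((h x).1 hy)).2, fun x => (h x).2⟩

def R {n : ℕ} (F : Fin n → Finset (Fin n)) : Fin n → Fin n → Prop :=
  ReflTransGen fun y x => y ∈ F x

theorem Rlt {n : ℕ} {g : Fin n → ℕ} {F : Fin n → Finset (Fin n)} (h : F ∈ T g) {p q : Fin n}
    (r : R F p q) : p = q ∨ g p < g q := by
  induction r with
  | refl => exact Or.inl rfl
  | tail _ b ih =>
    have := (memT h).1 _ _ b
    rcases ih with rfl | ih <;> exact Or.inr (by omega)

theorem cov {n : ℕ} {g : Fin n → ℕ} {F : Fin n → Finset (Fin n)} (h : F ∈ T g) (p q : Fin n) :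
    p ∈ F q ↔ R F p q ∧ p ≠ q ∧ ∀ s, R F p s → R F s q → s = p ∨ s = q := by
  constructor
  · intro b
    have e := (memT h).1 _ _ b
    refine ⟨ReflTransGen.single b, fun c => by rw [c] at e; omega, fun s s1 s2 => ?_⟩
    rcases Rlt h s1 with c | c
    · exact Or.inl c.symm
    · rcases Rlt h s2 with d | d
      · exact Or.inr d
      · omega
  · rintro ⟨r, ne, c⟩
    rcases ReflTransGen.cases_tail r with e | ⟨s, s1, s2⟩
    · exact absurd e.symm ne
    · have e := (memT h).1 _ _ s2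
      rcases c s s1 (ReflTransGen.single s2) with d | d
      · rwa [← d]
      · rw [d] at e; omega

theorem key (n k : ℕ) (G : Finset (Fin n → ℕ))
    (hG : ∀ g ∈ G, (∀ p, 1 ≤ g p) ∧ #(univ.image g) = k) : ∑ g ∈ G, #(T g) ≤ a k n := by
  classical
  rw [← card_sigma, ← Nat.card_eq_finsetCard]
  have ok : ∀ g ∈ G, ∀ F ∈ T g, IsPartialOrder (Fin n) (R F) ∧ Graded (R F) k := by
    intro g hg F h
    refine ⟨{ refl := fun _ => ReflTransGen.refl, trans := fun _ _ _ => ReflTransGen.trans,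
              antisymm := fun p q u v => ?_ }, g, (hG g hg).1, fun p q u => ?_,
      fun p q u v w => ((memT h).1 _ _ ((cov h p q).mpr ⟨u, v, w⟩)).symm, ?_, (hG g hg).2⟩
    · rcases Rlt h u with c | c
      · exact c
      · rcases Rlt h v with d | d
        · exact d.symm
        · omega
    · rcases Rlt h u with c | c
      · rw [c]
      · exact c.le
    · have : ∀ j p, g p = j → ∃ b, EqvGen (R F) p b ∧ g b = 1 := by
        intro j
        induction j using Nat.strong_induction_on with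
        | _ j ih =>
          intro p hp
          rcases (memT h).2 p with c | ⟨y, c⟩
          · exact ⟨p, EqvGen.refl _, c⟩
          · have := (memT h).1 _ _ c
            obtain ⟨b, b1, b2⟩ := ih (g y) (by omega) y rfl
            exact ⟨b, EqvGen.trans _ _ _ (EqvGen.symm _ _ (EqvGen.rel _ _ (ReflTransGen.single c))) b1, b2⟩
      exact fun p => this _ p rfl
  refine Nat.card_le_card_of_injective
    (fun z : G.sigma T => (⟨R z.1.2, ok _ (mem_sigma.mp z.2).1 _ (mem_sigma.mp z.2).2⟩ :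
      {r : Fin n → Fin n → Prop // IsPartialOrder (Fin n) r ∧ Graded r k})) ?_
  rintro ⟨⟨g, F⟩, h⟩ ⟨⟨g', F'⟩, h'⟩ e
  obtain ⟨h1, h2⟩ := mem_sigma.mp h
  obtain ⟨h1', h2'⟩ := mem_sigma.mp h'
  have e : R F = R F' := congrArg Subtype.val e
  have eF : F = F' := by
    funext q; ext p
    rw [cov h2, cov h2', e]
  subst eF
  have : ∀ j p, g p = j → g' p = j := by
    intro j
    induction j using Nat.strong_induction_on with
    | _ j ih =>
      intro p hp
      by_cases c : (F p).Nonempty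
      · obtain ⟨y, c⟩ := c
        have u : g y + 1 = g p := (memT h2).1 _ _ c
        have v : g' y + 1 = g' p := (memT h2').1 _ _ c
        have := ih (g y) (by omega) y rfl
        omega
      · have u : g p = 1 := ((memT h2).2 p).resolve_right c
        have v : g' p = 1 := ((memT h2').2 p).resolve_right c
        omega
  have eg : g = g' := funext fun p => (this _ p rfl).symm
  subst eg
  rfl

theorem lower (m : ℕ) (hm : 0 < m) : (6 * m).choose (3 * m) * (3 * m).choose m *
    ((2 ^ m - 1) ^ (3 * m) * (2 ^ (3 * m) - 1) ^ (2 * m) * (2 ^ (2 * m) - 1)) ≤ a 4 (6 * m + 1) := by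
  classical
  let X : Finset (Fin (6 * m + 1)) := univ.erase 0
  have cX : #X = 6 * m := by simp [X]
  let S := (X.powersetCard (3 * m)).sigma fun B => (X \ B).powersetCard m
  let f : (Σ _ : Finset (Fin (6 * m + 1)), Finset (Fin (6 * m + 1))) → Fin (6 * m + 1) → ℕ :=
    fun z x => if x ∈ z.2 then 1 else if x ∈ z.1 then 2 else if x = 0 then 4 else 3
  have cS : #S = (6 * m).choose (3 * m) * (3 * m).choose m := by
    rw [card_sigma, sum_const_nat (m := (3 * m).choose m), card_powersetCard, cX]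
    intro B hB
    obtain ⟨b1, b2⟩ := mem_powersetCard.mp hB
    rw [card_powersetCard, card_sdiff_of_subset b1, cX, b2, show 6 * m - 3 * m = 3 * m by omega]
  have lev : ∀ z ∈ S, univ.filter (fun y => f z y = 1) = z.2 ∧ univ.filter (fun y => f z y = 2) = z.1 ∧
      univ.filter (fun y => f z y = 3) = (X \ z.1) \ z.2 ∧ univ.filter (fun y => f z y = 4) = {0} := by
    intro z hz
    obtain ⟨b, c⟩ := mem_sigma.mp hz
    have b1 := (mem_powersetCard.mp b).1
    have c1 := (mem_powersetCard.mp c).1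
    have u : ∀ y, y ∈ z.1 → y ≠ 0 := fun y h => (mem_erase.mp (b1 h)).1
    have v : ∀ y, y ∈ z.2 → y ≠ 0 ∧ y ∉ z.1 := fun y h =>
      ⟨(mem_erase.mp (mem_sdiff.mp (c1 h)).1).1, (mem_sdiff.mp (c1 h)).2⟩
    refine ⟨?_, ?_, ?_, ?_⟩ <;> ext y <;> have := u y <;> have := v y <;>
      simp only [f, X, mem_filter, mem_univ, true_and, Finset.mem_sdiff, Finset.mem_erase,
        Finset.mem_singleton, and_true] <;>
      split_ifs <;> grind
  have crd : ∀ z ∈ S, #(univ.filter fun y => f z y = 1) = m ∧ #(univ.filter fun y => f z y = 2) = 3 * m ∧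
      #(univ.filter fun y => f z y = 3) = 2 * m ∧ #(univ.filter fun y => f z y = 4) = 1 := by
    intro z hz
    obtain ⟨l1, l2, l3, l4⟩ := lev z hz
    obtain ⟨b, c⟩ := mem_sigma.mp hz
    obtain ⟨b1, b2⟩ := mem_powersetCard.mp b
    obtain ⟨c1, c2⟩ := mem_powersetCard.mp c
    rw [l1, l2, l3, l4, card_sdiff_of_subset c1, card_sdiff_of_subset b1, cX, b2, c2]
    exact ⟨rfl, rfl, by omega, rfl⟩
  have rg : ∀ z y, f z y ∈ ({1, 2, 3, 4} : Finset ℕ) := by
    intro z y; simp only [f]; split_ifs <;> simp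
  have inj : Set.InjOn f S := by
    rintro ⟨B, A⟩ h ⟨B', A'⟩ h' e
    obtain ⟨l1, l2, -⟩ := lev _ h
    obtain ⟨l1', l2', -⟩ := lev _ h'
    rw [e, l1'] at l1
    rw [e, l2'] at l2
    dsimp only at l1 l2
    rw [l1, l2]
  refine le_trans ?_ (key _ 4 (S.image f) ?_)
  · rw [sum_image inj, ← cS, ← smul_eq_mul]
    refine card_nsmul_le_sum _ _ _ fun z hz => ?_
    obtain ⟨l1, l2, l3, l4⟩ := crd z hz
    rw [T, Fintype.card_piFinset]
    let w : ℕ → ℕ := fun j => if j = 1 then 1 else 2 ^ #(univ.filter fun y => f z y = j - 1) - 1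
    refine le_trans (le_of_eq ?_) (prod_le_prod' (f := fun x => w (f z x)) fun x _ => ?_)
    · rw [← prod_fiberwise_of_maps_to (t := {1, 2, 3, 4}) (g := f z) fun y _ => rg z y]
      have : ∀ j, ∏ y ∈ univ.filter (fun y => f z y = j), w (f z y) =
          w j ^ #(univ.filter fun y => f z y = j) := fun j => by
        rw [← prod_const]; exact prod_congr rfl fun y hy => by rw [(mem_filter.mp hy).2]
      simp only [this]
      rw [prod_insert (by simp), prod_insert (by simp), prod_insert (by simp), prod_singleton, l1, l2, l3, l4]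
      simp [w, l1, l2, l3, mul_assoc]
    · simp only [w]
      split_ifs with c
      · exact card_pos.mpr ⟨∅, by simp [c]⟩
      · have p : 1 ≤ f z x := by have := rg z x; simp at this; omega
        rw [← card_powerset, ← card_erase_of_mem (empty_mem_powerset _)]
        refine card_le_card fun s hs => ?_
        obtain ⟨s1, s2⟩ := mem_erase.mp hs
        refine mem_filter.mpr ⟨mem_powerset.mpr fun y hy => ?_, Or.inr (nonempty_iff_ne_empty.mpr s1)⟩
        have := (mem_filter.mp (mem_powerset.mp s2 hy)).2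
        exact mem_filter.mpr ⟨mem_univ _, by omega⟩
  · intro g hg
    obtain ⟨z, hz, rfl⟩ := mem_image.mp hg
    obtain ⟨l1, l2, l3, l4⟩ := crd z hz
    refine ⟨fun p => by have := rg z p; simp at this; omega, ?_⟩
    have : univ.image (f z) = {1, 2, 3, 4} := by
      refine Subset.antisymm (fun j hj => ?_) fun j hj => ?_
      · obtain ⟨y, -, rfl⟩ := mem_image.mp hj; exact rg z y
      · have : 0 < #(univ.filter fun y => f z y = j) := by
          simp only [mem_insert, mem_singleton] at hj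
          rcases hj with rfl | rfl | rfl | rfl <;> omega
        obtain ⟨y, hy⟩ := card_pos.mp this
        exact mem_image.mpr ⟨y, mem_univ _, (mem_filter.mp hy).2⟩
    rw [this]; rfl

theorem ch (m : ℕ) : 6 ^ m ≤ (m + 1) * (3 * m).choose m := by
  have f : ∀ m, (3 * m).choose m * m.factorial * (2 * m).factorial = (3 * m).factorial := fun m => by
    have := Nat.choose_mul_factorial_mul_factorial (show m ≤ 3 * m by omega)
    rwa [show 3 * m - m = 2 * m by omega] at this
  induction m with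
  | zero => simp
  | succ m ih =>
    have e1 := f m
    have e2 := f (m + 1)
    rw [show 2 * (m + 1) = 2 * m + 1 + 1 by ring, show (3 * (m + 1)).factorial = (3 * m + 1 + 1 + 1).factorial by
      congr 1] at e2
    simp only [Nat.factorial_succ] at e2
    rw [← e1] at e2
    have e3 : (3 * (m + 1)).choose (m + 1) * ((m + 1) * (2 * m + 2) * (2 * m + 1)) =
        (3 * m).choose m * ((3 * m + 3) * (3 * m + 2) * (3 * m + 1)) := by
      refine Nat.eq_of_mul_eq_mul_right (Nat.mul_pos m.factorial_pos (2 * m).factorial_pos) ?_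
      linarith
    refine Nat.le_of_mul_le_mul_right ?_ (show 0 < (m + 1) * (2 * m + 2) * (2 * m + 1) by positivity)
    rw [mul_assoc (m + 1 + 1), e3, pow_succ]
    calc _ = 6 ^ m * (6 * ((m + 1) * (2 * m + 2) * (2 * m + 1))) := by ring
      _ ≤ ((m + 1) * (3 * m).choose m) * (6 * ((m + 1) * (2 * m + 2) * (2 * m + 1))) :=
        Nat.mul_le_mul_right _ ih
      _ = (3 * m).choose m * ((m + 1) * (6 * ((m + 1) * (2 * m + 2) * (2 * m + 1)))) := by ring
      _ ≤ (3 * m).choose m * ((m + 1 + 1) * ((3 * m + 3) * (3 * m + 2) * (3 * m + 1))) :=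
        Nat.mul_le_mul_left _ (by nlinarith [Nat.zero_le (m ^ 4), Nat.zero_le (m ^ 3), Nat.zero_le (m ^ 2)])
      _ = _ := by ring

theorem bern (s N : ℕ) (h : 2 * N ≤ 2 ^ s) : 2 ^ (s * N) ≤ 2 * (2 ^ s - 1) ^ N := by
  have p : (0 : ℝ) < 2 ^ s := by positivity
  have h' : (2 : ℝ) * N ≤ 2 ^ s := by exact_mod_cast h
  have b := one_add_mul_le_pow (a := -(1 / (2 : ℝ) ^ s)) (by
    have : 1 / (2 : ℝ) ^ s ≤ 1 := by rw [div_le_one p]; exact one_le_pow₀ (by norm_num)
    linarith) N
  have c : (N : ℝ) * (1 / 2 ^ s) ≤ 1 / 2 := by rw [mul_one_div, div_le_iff₀ p]; linarith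
  have e : ((2 : ℝ) ^ s - 1) ^ N = (1 + -(1 / 2 ^ s)) ^ N * 2 ^ (s * N) := by
    rw [pow_mul, ← mul_pow]; congr 1; field_simp; ring
  have : (2 : ℝ) ^ (s * N) ≤ 2 * (2 ^ s - 1) ^ N := by
    rw [e]; nlinarith [show (0 : ℝ) < 2 ^ (s * N) by positivity]
  have o : 1 ≤ 2 ^ s := Nat.one_le_two_pow
  exact_mod_cast this

theorem low2 (m : ℕ) (hm : 5 ≤ m) :
    2 ^ (9 * m ^ 2 + 8 * m) * 6 ^ m ≤ (6 * m + 1) ^ 4 * a 4 (6 * m + 1) := by
  have p : 6 * m ≤ 2 ^ m := by
    induction m, hm using Nat.le_induction with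
    | base => norm_num
    | succ m h ih => rw [pow_succ]; omega
  have b1 := bern m (3 * m) (by omega)
  have b2 := bern (3 * m) (2 * m) (by
    have := Nat.pow_le_pow_right (show 0 < 2 by norm_num) (show m ≤ 3 * m by omega); omega)
  have b3 := bern (2 * m) 1 (by
    have := Nat.pow_le_pow_right (show 0 < 2 by norm_num) (show m ≤ 2 * m by omega); omega)
  have c1 := Nat.four_pow_le_two_mul_self_mul_centralBinom (3 * m) (by omega)
  rw [Nat.centralBinom, show 2 * (3 * m) = 6 * m by ring] at c1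
  have c2 := ch m
  have l := lower m (by omega)
  calc _ = 4 ^ (3 * m) * 6 ^ m * (2 ^ (m * (3 * m)) * 2 ^ (3 * m * (2 * m)) * 2 ^ (2 * m * 1)) := by
        rw [show (4 : ℕ) = 2 ^ 2 by norm_num, ← pow_mul]; ring
    _ ≤ (6 * m * (6 * m).choose (3 * m)) * ((m + 1) * (3 * m).choose m) *
        (2 * (2 ^ m - 1) ^ (3 * m) * (2 * (2 ^ (3 * m) - 1) ^ (2 * m)) * (2 * (2 ^ (2 * m) - 1) ^ 1)) := by
        gcongr
    _ = (48 * m * (m + 1)) * ((6 * m).choose (3 * m) * (3 * m).choose m *
        ((2 ^ m - 1) ^ (3 * m) * (2 ^ (3 * m) - 1) ^ (2 * m) * (2 ^ (2 * m) - 1))) := by ring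
    _ ≤ _ := Nat.mul_le_mul (by nlinarith [Nat.zero_le (m ^ 4), Nat.zero_le (m ^ 3), Nat.zero_le (m ^ 2)]) l

theorem result : ¬ (fun n : ℕ => Real.logb 2 (a 4 n) - ((n : ℝ) ^ 2 / 4 + 5 / 4 * n)) =O[atTop]
    fun n : ℕ => Real.log n := by
  intro h
  obtain ⟨C, hC, h⟩ := h.exists_pos
  have l := (Real.isLittleO_log_id_atTop.comp_tendsto tendsto_natCast_atTop_atTop).bound
    (show 0 < 1 / (200 * (8 + C)) by positivity)
  obtain ⟨N, hN⟩ := eventually_atTop.mp (h.bound.and l)
  let m := N + 100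
  obtain ⟨h1, h2⟩ := hN (6 * m + 1) (by omega)
  have q := low2 m (by omega)
  have hm : (100 : ℝ) ≤ m := by exact_mod_cast (show 100 ≤ m by omega)
  have ap : 0 < a 4 (6 * m + 1) := Nat.pos_of_ne_zero fun e => by
    rw [e, mul_zero] at q; exact absurd q (not_le.mpr (by positivity))
  have q' : (2 : ℝ) ^ (9 * m ^ 2 + 8 * m) * 6 ^ m ≤ ((6 * m + 1 : ℕ) : ℝ) ^ 4 * a 4 (6 * m + 1) := by
    exact_mod_cast q
  have ap' : (0 : ℝ) < a 4 (6 * m + 1) := by exact_mod_cast ap
  have q2 := Real.log_le_log (by positivity) q'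
  rw [Real.log_mul (by positivity) (by positivity), Real.log_mul (by positivity) ap'.ne', Real.log_pow,
    Real.log_pow, Real.log_pow] at q2
  have l6 : 31 * Real.log 2 ≤ 12 * Real.log 6 := by
    have := Real.log_le_log (by positivity) (show (2 : ℝ) ^ 31 ≤ 6 ^ 12 by norm_num)
    rw [Real.log_pow, Real.log_pow] at this; exact_mod_cast this
  have l2 := Real.log_two_gt_d9
  have l2' := Real.log_two_lt_d9
  have L0 : 0 ≤ Real.log ((6 * m + 1 : ℕ) : ℝ) := Real.log_natCast_nonneg _
  simp only [Function.comp, id, Real.norm_eq_abs, abs_of_nonneg L0, Nat.abs_cast] at h1 h2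
  have h3 := (abs_le.mp h1).2
  rw [Real.logb, sub_le_iff_le_add, div_le_iff₀ (by linarith)] at h3
  rw [one_div, ← div_eq_inv_mul, le_div_iff₀ (by positivity)] at h2
  push_cast at *
  set L := Real.log (6 * m + 1)
  have t1 : C * L * Real.log 2 ≤ C * L := by nlinarith [mul_nonneg hC.le L0]
  nlinarith [mul_le_mul_of_nonneg_left l6 (show (0 : ℝ) ≤ m by linarith),
    mul_le_mul_of_nonneg_left l2.le (show (0 : ℝ) ≤ m by linarith)]

end Pool.Agent.Results.MP_ac85ec_co.Four
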